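import Mathlib
import Pool.Agent.W560.HP.Stm

/-! Project HP: the Hilbert property of the subfields of purely transcendental extensions of
Hilbertian fields. -/

set_option autoImplicit false

namespace Pool.Agent.W790.HP

open Polynomial W560.HP

section rep

variable {k Ω ι : Type} [Field k] [Field Ω] [Algebra k Ω]

/-- `x = p(t) / G(t) ^ n` -/
def Rep (t : ι → Ω) (G : MvPolynomial ι k) (x : Ω) (n : ℕ) (p : MvPolynomial ι k) : Prop :=
  MvPolynomial.aeval t G ^ n * x = MvPolynomial.aeval t p

/-- the value of `p(t) / G(t) ^ n` at `a` -/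
theorem rep_wd {t : ι → Ω} (ht : AlgebraicIndependent k t) {G : MvPolynomial ι k} {a : ι → k}
    (ha : MvPolynomial.eval a G ≠ 0) {x : Ω} {n m : ℕ} {p p' : MvPolynomial ι k}
    (h : Rep t G x n p) (h' : Rep t G x m p') :
    MvPolynomial.eval a p / MvPolynomial.eval a G ^ n =
      MvPolynomial.eval a p' / MvPolynomial.eval a G ^ m := by
  have h1 : G ^ m * p = G ^ n * p' := by
    apply ht
    unfold Rep at h h'
    rw [map_mul, map_mul, map_pow, map_pow, ← h, ← h']
    ring
  have h2 := congrArg (MvPolynomial.eval a) h1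
  rw [map_mul, map_mul, map_pow, map_pow] at h2
  rw [div_eq_div_iff (pow_ne_zero _ ha) (pow_ne_zero _ ha)]
  linear_combination h2

theorem rep_add {t : ι → Ω} {G : MvPolynomial ι k} {x y : Ω} {n m : ℕ} {p p' : MvPolynomial ι k}
    (h : Rep t G x n p) (h' : Rep t G y m p') : Rep t G (x + y) (n + m) (G ^ m * p + G ^ n * p') := by
  unfold Rep at *
  rw [map_add, map_mul, map_mul, map_pow, map_pow, ← h, ← h']
  ring

theorem rep_mul {t : ι → Ω} {G : MvPolynomial ι k} {x y : Ω} {n m : ℕ} {p p' : MvPolynomial ι k}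
    (h : Rep t G x n p) (h' : Rep t G y m p') : Rep t G (x * y) (n + m) (p * p') := by
  unfold Rep at *
  rw [map_mul, ← h, ← h']
  ring

theorem rep_alg (t : ι → Ω) (G : MvPolynomial ι k) (c : k) :
    Rep t G (algebraMap k Ω c) 0 (MvPolynomial.C c) := by
  unfold Rep
  rw [MvPolynomial.aeval_C]
  simp

variable (t : ι → Ω) (K : IntermediateField k Ω) (G : MvPolynomial ι k)

/-- the subalgebra of the `p(t) / G(t) ^ n` -/
def BB : Subalgebra k K where
  carrier := {x | ∃ n p, Rep t G (x : Ω) n p}
  mul_mem' := by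
    rintro x y ⟨n, p, h⟩ ⟨m, p', h'⟩
    exact ⟨_, _, rep_mul h h'⟩
  add_mem' := by
    rintro x y ⟨n, p, h⟩ ⟨m, p', h'⟩
    exact ⟨_, _, rep_add h h'⟩
  algebraMap_mem' c := ⟨0, _, rep_alg t G c⟩

variable {t K G}

/-- the value -/
noncomputable def vl (a : ι → k) (x : BB t K G) : k :=
  MvPolynomial.eval a x.2.choose_spec.choose / MvPolynomial.eval a G ^ x.2.choose

theorem vl_eq (ht : AlgebraicIndependent k t) {a : ι → k} (ha : MvPolynomial.eval a G ≠ 0)
    (x : BB t K G) {n : ℕ} {p : MvPolynomial ι k} (h : Rep t G ((x : K) : Ω) n p) :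
    vl a x = MvPolynomial.eval a p / MvPolynomial.eval a G ^ n :=
  rep_wd ht ha x.2.choose_spec.choose_spec h

/-- the value as a homomorphism -/
noncomputable def vh (ht : AlgebraicIndependent k t) {a : ι → k} (ha : MvPolynomial.eval a G ≠ 0) :
    BB t K G →ₐ[k] k where
  toFun := vl a
  map_one' := by
    have h : Rep t G (((1 : BB t K G) : K) : Ω) 0 1 := by
      unfold Rep
      simp
    rw [vl_eq ht ha _ h]
    simp
  map_zero' := by
    have h : Rep t G (((0 : BB t K G) : K) : Ω) 0 0 := by
      unfold Rep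
      simp
    rw [vl_eq ht ha _ h]
    simp
  map_mul' := by
    intro x y
    obtain ⟨n, p, h⟩ := x.2
    obtain ⟨m, p', h'⟩ := y.2
    rw [vl_eq ht ha x h, vl_eq ht ha y h', vl_eq ht ha (x * y) (rep_mul h h'), map_mul, pow_add,
      div_mul_div_comm]
  map_add' := by
    intro x y
    obtain ⟨n, p, h⟩ := x.2
    obtain ⟨m, p', h'⟩ := y.2
    rw [vl_eq ht ha x h, vl_eq ht ha y h', vl_eq ht ha (x + y) (rep_add h h'), map_add, map_mul,
      map_mul, map_pow, map_pow, pow_add]
    field_simp
  commutes' := by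
    intro c
    rw [vl_eq ht ha _ (rep_alg t G c)]
    simp

end rep

/-- common denominators -/
theorem common {k Ω ι : Type} [Field k] [Field Ω] [Algebra k Ω] (t : ι → Ω)
    (ht : AlgebraicIndependent k t) (htop : IntermediateField.adjoin k (Set.range t) = ⊤)
    (T : Finset Ω) : ∃ G : MvPolynomial ι k, G ≠ 0 ∧ ∀ x ∈ T, ∃ p, Rep t G x 1 p := by
  classical
  induction T using Finset.induction_on with
  | empty => exact ⟨1, one_ne_zero, by simp⟩
  | insert x T _ ih =>
    obtain ⟨G, hG, hT⟩ := ih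
    have hx : x ∈ IntermediateField.adjoin k (Set.range t) := by rw [htop]; trivial
    rw [IntermediateField.mem_adjoin_range_iff] at hx
    obtain ⟨r, s, hrs⟩ := hx
    obtain ⟨r', s', hs', hx'⟩ : ∃ r' s' : MvPolynomial ι k, s' ≠ 0 ∧
        MvPolynomial.aeval t s' * x = MvPolynomial.aeval t r' := by
      by_cases hs : s = 0
      · refine ⟨0, 1, one_ne_zero, ?_⟩
        rw [hrs, hs]
        simp
      · refine ⟨r, s, hs, ?_⟩
        have : MvPolynomial.aeval t s ≠ 0 := by
          intro h
          apply hs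
          apply ht
          rw [h, map_zero]
        rw [hrs, mul_div_cancel₀ _ this]
    refine ⟨G * s', mul_ne_zero hG hs', ?_⟩
    intro y hy
    rw [Finset.mem_insert] at hy
    rcases hy with rfl | hy
    · refine ⟨G * r', ?_⟩
      unfold Rep
      rw [map_mul, map_mul, ← hx']
      ring
    · obtain ⟨p, hp⟩ := hT y hy
      refine ⟨s' * p, ?_⟩
      unfold Rep at *
      rw [map_mul, map_mul, ← hp]
      ring

theorem hpf : S_HPF := by
  classical
  intro k Ω ι _ _ _ _ t K hk ht htop hK q P hP S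
  -- the finite set
  let T : Finset Ω := (S.image fun x : K => (x : Ω)) ∪
    Finset.univ.biUnion fun j : Fin q => ((P j).coeffs.image fun x : K => (x : Ω)) ∪ {0}
  obtain ⟨G, hG, hT⟩ := common t ht htop T
  have hTS : ∀ x ∈ S, ∃ p, Rep t G (x : Ω) 1 p := by
    intro x hx
    apply hT
    simp only [T, Finset.mem_union, Finset.mem_image, Finset.mem_biUnion]
    exact Or.inl ⟨x, hx, rfl⟩
  have hTP : ∀ j n, ∃ p, Rep t G (((P j).coeff n : K) : Ω) 1 p := by
    intro j n
    by_cases h0 : (P j).coeff n = 0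
    · refine ⟨0, ?_⟩
      unfold Rep
      rw [h0]
      simp
    · apply hT
      simp only [T, Finset.mem_union, Finset.mem_image, Finset.mem_biUnion]
      refine Or.inr ⟨j, Finset.mem_univ _, Or.inl ⟨(P j).coeff n, ?_, rfl⟩⟩
      exact Polynomial.coeff_mem_coeffs h0
  set ψ : MvPolynomial ι k →+* Ω := ((MvPolynomial.aeval t : MvPolynomial ι k →ₐ[k] Ω) :
    MvPolynomial ι k →+* Ω) with hψ
  have hψi : Function.Injective ψ := ht
  -- the polynomials over the polynomial ring
  have hlift : ∀ j, ∃ Q : (MvPolynomial ι k)[X],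
      Q.map ψ = Polynomial.C (ψ G) * (P j).map (algebraMap K Ω) := by
    intro j
    rw [← Polynomial.mem_lifts, Polynomial.lifts_iff_coeff_lifts]
    intro n
    obtain ⟨p, hp⟩ := hTP j n
    refine ⟨p, ?_⟩
    rw [Polynomial.coeff_C_mul, Polynomial.coeff_map]
    unfold Rep at hp
    rw [pow_one] at hp
    exact hp.symm
  choose Q hQ using hlift
  have hψG : ψ G ≠ 0 := fun h => hG (hψi (by rw [h, map_zero]))
  -- no roots in `Ω`
  have hnoroot : ∀ j (x : Ω), (Q j |>.map ψ).eval x ≠ 0 := by
    intro j x hx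
    rw [hQ, Polynomial.eval_mul, Polynomial.eval_C] at hx
    have hx' : ((P j).map (algebraMap K Ω)).eval x = 0 := (mul_eq_zero.1 hx).resolve_left hψG
    have hPj : P j ≠ 0 := by
      intro h
      apply hP j 0
      rw [h, Polynomial.eval_zero]
    have hxK : x ∈ K := hK x ⟨P j, hPj, by rw [Polynomial.aeval_def, ← Polynomial.eval_map]; exact hx'⟩
    apply hP j ⟨x, hxK⟩
    apply (algebraMap K Ω).injective
    rw [map_zero, ← hx', Polynomial.eval_map]
    exact (Polynomial.eval₂_at_apply (algebraMap K Ω) (⟨x, hxK⟩ : K)).symm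
  have hnoroot2 : ∀ (j : Fin q) (θ : FractionRing (MvPolynomial ι k)),
      ((Q j).map (algebraMap (MvPolynomial ι k) (FractionRing (MvPolynomial ι k)))).eval θ ≠ 0 := by
    intro j θ hθ
    let Λ : FractionRing (MvPolynomial ι k) →+* Ω := IsFractionRing.lift hψi
    apply hnoroot j (Λ θ)
    have h1 : (Q j).map ψ = ((Q j).map (algebraMap (MvPolynomial ι k)
        (FractionRing (MvPolynomial ι k)))).map Λ := by
      rw [Polynomial.map_map]
      congr 1
      refine RingHom.ext fun x => ?_
      simp [Λ]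
    rw [h1, Polynomial.eval_map, Polynomial.eval₂_hom, hθ, map_zero]
  obtain ⟨a, ha, hroot⟩ := hk ι q Q G hG hnoroot2
  -- the polynomials over `B`
  have hliftB : ∀ j, ∃ P' : (BB t K G)[X], P'.map (algebraMap (BB t K G) K) = P j := by
    intro j
    rw [← Polynomial.mem_lifts, Polynomial.lifts_iff_coeff_lifts]
    intro n
    obtain ⟨p, hp⟩ := hTP j n
    exact ⟨⟨(P j).coeff n, 1, p, hp⟩, rfl⟩
  choose P' hP' using hliftB
  refine ⟨BB t K G, vh ht ha, P', ?_, hP', ?_⟩
  · intro x hx
    obtain ⟨p, hp⟩ := hTS x hx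
    exact ⟨1, p, hp⟩
  · intro j x hx
    apply hroot j x
    have h1 : (Q j).map (MvPolynomial.eval a) =
        Polynomial.C (MvPolynomial.eval a G) * (P' j).map ((vh ht ha : BB t K G →ₐ[k] k) : BB t K G →+* k) := by
      ext n
      rw [Polynomial.coeff_map, Polynomial.coeff_C_mul, Polynomial.coeff_map]
      have h2 : Rep t G ((((P' j).coeff n : BB t K G) : K) : Ω) 1 ((Q j).coeff n) := by
        unfold Rep
        have h3 := congrArg (fun r => Polynomial.coeff r n) (hQ j)
        simp only [Polynomial.coeff_map, Polynomial.coeff_C_mul] at h3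
        have h4 := congrArg (fun r => Polynomial.coeff r n) (hP' j)
        simp only [Polynomial.coeff_map] at h4
        rw [pow_one]
        have h5 : (((P' j).coeff n : BB t K G) : K) = (P j).coeff n := h4
        rw [h5]
        exact h3.symm
      have h6 : (((vh ht ha : BB t K G →ₐ[k] k) : BB t K G →+* k)) ((P' j).coeff n) =
          MvPolynomial.eval a ((Q j).coeff n) / MvPolynomial.eval a G ^ 1 := vl_eq ht ha _ h2
      rw [h6, pow_one, mul_div_cancel₀ _ ha]
    rw [h1, Polynomial.eval_mul, hx, mul_zero]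

end Pool.Agent.W790.HP
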